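import Pool.Agent.Helper14.W5.StE

/-!
# Project W5 (MP_1d384c_nt), module Wv: words and `ev5`
-/

set_option autoImplicit false

open Pool.Agent.Helper14.W5
open Pool.Agent.Helper14.CV (Homog EqC act Tl)
open Pool.Agent.Helper28.WK (SymP Tw evw Ok)

namespace Pool.Agent.Helper60.W5

section

variable {R : Type} [AddCommGroup R]

private theorem tw_append (m : ℤ) (l₁ l₂ : List ℕ) (G : ℤ → ℤ → R) :
    Tw m (l₁ ++ l₂) G = Tw m l₁ (Tw m l₂ G) := by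
  induction l₁ with
  | nil => rfl
  | cons l ls ih => simp only [List.cons_append, Tw, ih]

private theorem wz_Tl {m : ℤ} {G : ℤ → ℤ → R} (h : Wz 5 m G) {l : ℕ} (hl : l.Prime) (hl5 : l ≠ 5) :
    Wz 5 m (Tl l m G) := by
  intro ls hls
  have h1 := h (ls ++ [l]) (by
    intro l' hl'
    rcases List.mem_append.1 hl' with h1 | h1
    · exact hls l' h1
    · rw [List.mem_singleton.1 h1]
      exact ⟨hl, hl5⟩)
  unfold evw at h1 ⊢
  rw [tw_append] at h1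
  exact h1

private theorem wz_add {m : ℤ} {G H : ℤ → ℤ → R} (h : Wz 5 m G) (h' : Wz 5 m H) : Wz 5 m (G + H) := by
  intro ls hls
  have h1 := h ls hls
  have h2 := h' ls hls
  unfold evw at h1 h2 ⊢
  rw [Pool.Agent.Helper14.W5.Tw_add, Pi.add_apply, Pi.add_apply, Pi.add_apply, Pi.add_apply, add_sub_add_comm, h1, h2,
    add_zero]

private theorem wz_smul {m : ℤ} {G : ℤ → ℤ → R} (k : ℤ) (h : Wz 5 m G) : Wz 5 m (k • G) := by
  intro ls hls
  have h1 := h ls hls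
  unfold evw at h1 ⊢
  rw [Pool.Agent.Helper14.W5.Tw_smul, Pi.smul_apply, Pi.smul_apply, Pi.smul_apply, Pi.smul_apply, ← smul_sub, h1,
    smul_zero]

private theorem wz_sub {m : ℤ} {G H : ℤ → ℤ → R} (h : Wz 5 m G) (h' : Wz 5 m H) : Wz 5 m (G - H) := by
  have e : G - H = G + (-1 : ℤ) • H := by rw [neg_one_smul, sub_eq_add_neg]
  rw [e]
  exact wz_add h (wz_smul _ h')

private theorem wz_T2 {m : ℤ} {G : ℤ → ℤ → R} (h : Wz 5 m G) : Wz 5 m (Tl 2 m G) :=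
  wz_Tl h (by norm_num) (by norm_num)

private theorem wz_T3 {m : ℤ} {G : ℤ → ℤ → R} (h : Wz 5 m G) : Wz 5 m (Tl 3 m G) :=
  wz_Tl h (by norm_num) (by norm_num)

private theorem wz_Uo {m : ℤ} {G : ℤ → ℤ → R} (h : Wz 5 m G) : Wz 5 m (Uo m G) :=
  wz_add (wz_T2 (wz_T2 h)) h

private theorem wz_Vo {m : ℤ} {G : ℤ → ℤ → R} (h : Wz 5 m G) : Wz 5 m (Vo m G) :=
  wz_sub (wz_sub (wz_T3 (wz_T3 h)) (wz_smul 2 (wz_T2 (wz_T3 h)))) (wz_smul 2 h)

private theorem wz_Oo {m : ℤ} {G : ℤ → ℤ → R} (h : Wz 5 m G) : Wz 5 m (Oo m G) :=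
  wz_sub (wz_sub (wz_T2 (wz_T2 h)) (wz_T2 h)) h

private theorem wz_iter {m : ℤ} {F : (ℤ → ℤ → R) → (ℤ → ℤ → R)} (hF : ∀ G, Wz 5 m G → Wz 5 m (F G))
    {G : ℤ → ℤ → R} (h : Wz 5 m G) (n : ℕ) : Wz 5 m (F^[n] G) := by
  induction n with
  | zero => exact h
  | succ n ih =>
    rw [Function.iterate_succ_apply']
    exact hF _ ih

end

/-- WV -/
theorem hWv : S5Wv := by
  intro R _ m G h c i j
  have h1 := wz_iter (F := Vo m) (fun _ => wz_Vo) h j
  have h2 := wz_iter (F := Uo m) (fun _ => wz_Uo) h1 i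
  have h3 := wz_iter (F := Oo m) (fun _ => wz_Oo) h2 c
  exact h3 [] (by intro l hl; simp at hl)

end Pool.Agent.Helper60.W5
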